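import Pool.Agent.R553.SNT.Main

open Set Filter Cardinal Pool.Agent.R553.SNT

namespace Pool.Agent.Results.MP_7819b7_lc.AddSNCounterexample

/-- (a) If `𝔡 = ℵ₁`, there is an `S` satisfying all hypotheses of the question for `λ = ℵ₁`.
(b) For infinite `λ`, `D_λ^λ ⪯_T 𝒮𝒩` implies `λ ⪯_T 𝒮𝒩`, which implies `add(𝒮𝒩) ≤ cf(λ)`.
(c) If `𝔡 = ℵ₁ < add(𝒮𝒩)`, some `S` satisfies all hypotheses of the question for `λ = ℵ₁`,
but `D_λ^λ ⪯_T 𝒮𝒩` fails, and even `λ ⪯_T 𝒮𝒩` fails. -/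
theorem result :
    (domNumber = ℵ₁ → ∃ (S : Type) (_ : PartialOrder S) (i₀ : S), Hyp ℵ₁ S i₀) ∧
    (∀ lam : Cardinal.{0}, ℵ₀ ≤ lam →
      (TukeyLE (powRel lam) snRel → TukeyLE (cardRel lam) snRel) ∧
      (TukeyLE (cardRel lam) snRel → addSN ≤ lam.ord.cof)) ∧
    (domNumber = ℵ₁ → ℵ₁ < addSN →
      ∃ (S : Type) (_ : PartialOrder S) (i₀ : S),
        Hyp ℵ₁ S i₀ ∧ ¬ TukeyLE (powRel ℵ₁) snRel ∧ ¬ TukeyLE (cardRel ℵ₁) snRel) := by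
  refine ⟨exists_hyp, fun lam hlam => ⟨fun h => (card_le_pow lam hlam).trans h, addSN_le hlam⟩, ?_⟩
  intro hd ha
  obtain ⟨S, hS, i₀, h⟩ := exists_hyp hd
  have key : ¬ TukeyLE (cardRel ℵ₁) snRel := fun hT =>
    absurd ((addSN_le (aleph0_le_aleph 1) hT).trans (Ordinal.cof_ord_le _)) (not_le.mpr ha)
  exact ⟨S, hS, i₀, h, fun hT => key ((card_le_pow _ (aleph0_le_aleph 1)).trans hT), key⟩

end Pool.Agent.Results.MP_7819b7_lc.AddSNCounterexample
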